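import Pool.Agent.Helper96.BV.Large

/-!
# Project CA (MP_87fff7_nt): the sum of `1 / φ(s)` over an interval
-/

set_option autoImplicit false

open Finset

namespace Pool.Agent.Helper26.CA

/-- `μ²(d) / (d φ(d))`. -/
noncomputable def fA : ArithmeticFunction ℝ :=
  ⟨fun d => by classical exact if Squarefree d then 1 / ((d : ℝ) * d.totient) else 0, by simp⟩

/-- `1 / k`. -/
noncomputable def gA : ArithmeticFunction ℝ := ⟨fun k => ((k : ℝ))⁻¹, by simp⟩

/-- `1 / φ(n)`. -/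
noncomputable def hA : ArithmeticFunction ℝ := ⟨fun n => 1 / (n.totient : ℝ), by simp⟩

theorem fA_sq {d : ℕ} (h : Squarefree d) : fA d = 1 / ((d : ℝ) * d.totient) := by
  classical
  show (if Squarefree d then 1 / ((d : ℝ) * d.totient) else 0) = _
  rw [if_pos h]

theorem fA_nsq {d : ℕ} (h : ¬ Squarefree d) : fA d = 0 := by
  classical
  show (if Squarefree d then 1 / ((d : ℝ) * d.totient) else 0) = _
  rw [if_neg h]

theorem gA_apply (k : ℕ) : gA k = ((k : ℝ))⁻¹ := rfl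

theorem hA_apply (n : ℕ) : hA n = 1 / (n.totient : ℝ) := rfl

theorem fA_mult : fA.IsMultiplicative := by
  rw [ArithmeticFunction.IsMultiplicative.iff_ne_zero]
  refine ⟨by rw [fA_sq squarefree_one]; simp, ?_⟩
  intro m n _ _ hmn
  by_cases h1 : Squarefree m
  · by_cases h2 : Squarefree n
    · rw [fA_sq h1, fA_sq h2, fA_sq ((Nat.squarefree_mul hmn).2 ⟨h1, h2⟩), Nat.totient_mul hmn]
      push_cast
      rw [one_div_mul_one_div]
      congr 1
      ring
    · rw [fA_nsq h2, fA_nsq (fun h => h2 ((Nat.squarefree_mul hmn).1 h).2), mul_zero]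
  · rw [fA_nsq h1, fA_nsq (fun h => h1 ((Nat.squarefree_mul hmn).1 h).1), zero_mul]

theorem gA_mult : gA.IsMultiplicative := by
  rw [ArithmeticFunction.IsMultiplicative.iff_ne_zero]
  refine ⟨by rw [gA_apply]; simp, ?_⟩
  intro m n _ _ _
  rw [gA_apply, gA_apply, gA_apply]
  push_cast
  rw [mul_inv]

theorem hA_mult : hA.IsMultiplicative := by
  rw [ArithmeticFunction.IsMultiplicative.iff_ne_zero]
  refine ⟨by rw [hA_apply]; simp, ?_⟩
  intro m n _ _ hmn
  rw [hA_apply, hA_apply, hA_apply, Nat.totient_mul hmn]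
  push_cast
  rw [one_div_mul_one_div]

theorem conv : fA * gA = hA := by
  rw [ArithmeticFunction.IsMultiplicative.eq_iff_eq_on_prime_powers _ (fA_mult.mul gA_mult) _
    hA_mult]
  intro p i hp
  rw [ArithmeticFunction.mul_apply, Nat.sum_divisorsAntidiagonal (fun a b => fA a * gA b),
    Nat.sum_divisors_prime_pow hp]
  have hp1 : (1 : ℝ) < p := by exact_mod_cast hp.one_lt
  have hp0 : (p : ℝ) ≠ 0 := by positivity
  cases i with
  | zero => simp [fA_sq squarefree_one, gA_apply, hA_apply]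
  | succ j =>
    have h2 : ∀ k ∈ range (j + 1 + 1), k ∉ range 2 → fA (p ^ k) * gA (p ^ (j + 1) / p ^ k) = 0 := by
      intro k _ hk
      rw [Finset.mem_range, not_lt] at hk
      rw [fA_nsq, zero_mul]
      intro hsq
      have := (Nat.squarefree_pow_iff hp.ne_one (by omega : k ≠ 0)).1 hsq
      omega
    rw [← Finset.sum_subset (Finset.range_subset_range.2 (by omega : 2 ≤ j + 1 + 1)) h2,
      Finset.sum_range_succ, Finset.sum_range_one]
    have e1 : p ^ (j + 1) / p ^ 0 = p ^ (j + 1) := by simp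
    have e2 : p ^ (j + 1) / p ^ 1 = p ^ j := by
      rw [pow_one, pow_succ, Nat.mul_div_cancel _ hp.pos]
    rw [e1, e2, pow_zero, pow_one, fA_sq squarefree_one, fA_sq hp.prime.squarefree, gA_apply,
      gA_apply, hA_apply, Nat.totient_prime_pow hp (Nat.succ_pos j), Nat.totient_prime hp,
      Nat.totient_one]
    have hc : ((p - 1 : ℕ) : ℝ) = (p : ℝ) - 1 := by
      rw [Nat.cast_sub hp.one_lt.le, Nat.cast_one]
    push_cast [hc]
    have h3 : (p : ℝ) - 1 ≠ 0 := by linarith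
    field_simp
    ring

theorem fA_nonneg (d : ℕ) : 0 ≤ fA d := by
  by_cases h : Squarefree d
  · rw [fA_sq h]; positivity
  · rw [fA_nsq h]

theorem fA_le {d : ℕ} (hd : 0 < d) : fA d ≤ 2 * (d : ℝ) ^ (-(3 / 2) : ℝ) := by
  have hd' : (0 : ℝ) < d := by exact_mod_cast hd
  by_cases h : Squarefree d
  · rw [fA_sq h]
    have h1 := Pool.Agent.Helper96.BV.inv_totient_le hd
    have h2 : (d : ℝ) ^ (-(3 / 2) : ℝ) = 1 / d * (1 / Real.sqrt d) := by
      rw [Real.sqrt_eq_rpow, one_div, one_div, ← Real.rpow_neg_one, ← Real.rpow_neg hd'.le,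
        ← Real.rpow_add hd']
      norm_num
    rw [h2]
    have h3 : 1 / ((d : ℝ) * d.totient) = 1 / d * (1 / (d.totient : ℝ)) := by
      rw [one_div_mul_one_div]
    rw [h3]
    calc 1 / (d : ℝ) * (1 / (d.totient : ℝ)) ≤ 1 / d * (2 / Real.sqrt d) :=
          mul_le_mul_of_nonneg_left h1 (by positivity)
      _ = _ := by ring
  · rw [fA_nsq h]; positivity

theorem fA_log_le (d : ℕ) : fA d * Real.log d ≤ 8 * (d : ℝ) ^ (-(5 / 4) : ℝ) := by
  rcases Nat.eq_zero_or_pos d with hd | hd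
  · subst hd; simp
  · have hd' : (0 : ℝ) < d := by exact_mod_cast hd
    have hd1 : (1 : ℝ) ≤ d := by exact_mod_cast hd
    have h1 := fA_le hd
    have h2 : Real.log d ≤ (d : ℝ) ^ (1 / 4 : ℝ) / (1 / 4) :=
      Real.log_le_rpow_div hd'.le (by norm_num)
    have h3 : 0 ≤ Real.log d := Real.log_nonneg hd1
    calc fA d * Real.log d ≤ (2 * (d : ℝ) ^ (-(3 / 2) : ℝ)) * ((d : ℝ) ^ (1 / 4 : ℝ) / (1 / 4)) :=
          mul_le_mul h1 h2 h3 (by positivity)
      _ = 8 * ((d : ℝ) ^ (-(3 / 2) : ℝ) * (d : ℝ) ^ (1 / 4 : ℝ)) := by ring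
      _ = 8 * (d : ℝ) ^ (-(5 / 4) : ℝ) := by
          rw [← Real.rpow_add hd']; norm_num

theorem summable_fA : Summable fun d : ℕ => fA d := by
  refine Summable.of_nonneg_of_le fA_nonneg (f := fun d : ℕ => 2 * (d : ℝ) ^ (-(3 / 2) : ℝ)) ?_ ?_
  · intro d
    rcases Nat.eq_zero_or_pos d with hd | hd
    · subst hd; rw [ArithmeticFunction.map_zero]; positivity
    · exact fA_le hd
  · exact (Real.summable_nat_rpow.2 (by norm_num)).mul_left 2

theorem summable_fA_log : Summable fun d : ℕ => fA d * Real.log d := by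
  refine Summable.of_nonneg_of_le (fun d => ?_) fA_log_le
    ((Real.summable_nat_rpow.2 (by norm_num)).mul_left 8)
  exact mul_nonneg (fA_nonneg d) (Real.log_natCast_nonneg d)

/-- The constant. -/
noncomputable def c0 : ℝ := ∑' d : ℕ, fA d

/-- The second constant. -/
noncomputable def c1 : ℝ := ∑' d : ℕ, fA d * Real.log d

theorem c0_pos : 0 < c0 := by
  unfold c0
  refine summable_fA.tsum_pos fA_nonneg 1 ?_
  rw [fA_sq squarefree_one]; simp

theorem c1_nonneg : 0 ≤ c1 := tsum_nonneg fun d =>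
  mul_nonneg (fA_nonneg d) (Real.log_natCast_nonneg d)

theorem sum_gA (n : ℕ) : ∑ m ∈ Ioc 0 n, gA m = (harmonic n : ℝ) := by
  rw [harmonic_eq_sum_Icc]
  push_cast
  rfl

/-- The sum of `1 / φ(n)` over `n ≤ N`. -/
noncomputable def S (N : ℕ) : ℝ := ∑ n ∈ Ioc 0 N, 1 / (n.totient : ℝ)

theorem S_eq (N : ℕ) : S N = ∑ d ∈ Ioc 0 N, fA d * (harmonic (N / d) : ℝ) := by
  have h := ArithmeticFunction.sum_Ioc_mul_eq_sum_sum fA gA N
  rw [conv] at h
  unfold S
  rw [show ∑ n ∈ Ioc 0 N, 1 / (n.totient : ℝ) = ∑ n ∈ Ioc 0 N, hA n from rfl, h]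
  exact Finset.sum_congr rfl fun d _ => by rw [sum_gA]

theorem harm_bounds {N d : ℕ} (hd : d ∈ Ioc 0 N) :
    Real.log N - Real.log d ≤ (harmonic (N / d) : ℝ) ∧
      (harmonic (N / d) : ℝ) ≤ 1 + (Real.log N - Real.log d) := by
  rw [Finset.mem_Ioc] at hd
  have hd' : (0 : ℝ) < d := by exact_mod_cast hd.1
  have hN' : (0 : ℝ) < N := by exact_mod_cast lt_of_lt_of_le hd.1 hd.2
  have h1 : (1 : ℝ) ≤ (N : ℝ) / d := by
    rw [one_le_div hd']; exact_mod_cast hd.2
  have hf : ⌊(N : ℝ) / d⌋₊ = N / d := Nat.floor_div_eq_div N d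
  have a := log_le_harmonic_floor ((N : ℝ) / d) (by positivity)
  have b := harmonic_floor_le_one_add_log ((N : ℝ) / d) h1
  rw [hf, Real.log_div hN'.ne' hd'.ne'] at a b
  exact ⟨a, b⟩

theorem S_le {N : ℕ} (hN : 1 ≤ N) : S N ≤ c0 * Real.log N + c0 := by
  rw [S_eq]
  have hlN : 0 ≤ Real.log N := Real.log_natCast_nonneg N
  calc ∑ d ∈ Ioc 0 N, fA d * (harmonic (N / d) : ℝ)
      ≤ ∑ d ∈ Ioc 0 N, fA d * (1 + Real.log N) := by
        refine Finset.sum_le_sum fun d hd => mul_le_mul_of_nonneg_left ?_ (fA_nonneg d)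
        have := (harm_bounds hd).2
        have := Real.log_natCast_nonneg d
        linarith
    _ = (∑ d ∈ Ioc 0 N, fA d) * (1 + Real.log N) := by rw [Finset.sum_mul]
    _ ≤ c0 * (1 + Real.log N) :=
        mul_le_mul_of_nonneg_right (summable_fA.sum_le_tsum _ fun d _ => fA_nonneg d)
          (by linarith)
    _ = _ := by ring

theorem le_S {N : ℕ} (hN : 1 ≤ N) : c0 * Real.log N - c1 ≤ S N := by
  rw [S_eq]
  have hsum : Summable fun d : ℕ => fA d * Real.log d - fA d * Real.log N :=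
    summable_fA_log.sub (summable_fA.mul_right _)
  have h1 : ∑ d ∈ Ioc 0 N, (fA d * Real.log d - fA d * Real.log N) ≤
      ∑' d : ℕ, (fA d * Real.log d - fA d * Real.log N) := by
    refine hsum.sum_le_tsum _ fun d hd => ?_
    rw [Finset.mem_Ioc, not_and, not_le] at hd
    rcases Nat.eq_zero_or_pos d with h0 | h0
    · subst h0; simp
    · rw [← mul_sub]
      refine mul_nonneg (fA_nonneg d) (sub_nonneg.2 ?_)
      exact Real.log_le_log (by exact_mod_cast hN) (by exact_mod_cast (hd h0).le)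
  have h2 : ∑' d : ℕ, (fA d * Real.log d - fA d * Real.log N) = c1 - c0 * Real.log N := by
    rw [summable_fA_log.tsum_sub (summable_fA.mul_right _), tsum_mul_right]
    rfl
  rw [h2] at h1
  have h3 : ∑ d ∈ Ioc 0 N, fA d * (Real.log N - Real.log d) ≤
      ∑ d ∈ Ioc 0 N, fA d * (harmonic (N / d) : ℝ) :=
    Finset.sum_le_sum fun d hd => mul_le_mul_of_nonneg_left (harm_bounds hd).1 (fA_nonneg d)
  have h4 : ∑ d ∈ Ioc 0 N, fA d * (Real.log N - Real.log d) =
      - ∑ d ∈ Ioc 0 N, (fA d * Real.log d - fA d * Real.log N) := by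
    rw [← Finset.sum_neg_distrib]
    exact Finset.sum_congr rfl fun d _ => by ring
  linarith

theorem S_sub {m n : ℕ} (h : m ≤ n) : ∑ s ∈ Ioc m n, 1 / (s.totient : ℝ) = S n - S m := by
  unfold S
  rw [eq_sub_iff_add_eq, add_comm]
  exact Finset.sum_Ioc_consecutive _ (Nat.zero_le m) h

theorem log_floor {A : ℝ} (hA : 1 ≤ A) :
    Real.log ⌊A⌋₊ ≤ Real.log A ∧ Real.log A ≤ Real.log ⌊A⌋₊ + Real.log 2 := by
  have h1 : 1 ≤ ⌊A⌋₊ := Nat.floor_pos.2 hA
  have h1' : (1 : ℝ) ≤ ⌊A⌋₊ := by exact_mod_cast h1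
  constructor
  · exact Real.log_le_log (by linarith) (Nat.floor_le (by linarith))
  · rw [← Real.log_mul (by linarith) (by norm_num)]
    refine Real.log_le_log (by linarith) ?_
    have := Nat.lt_floor_add_one A
    linarith

theorem phi_sum : ∃ c0 C : ℝ, 0 < c0 ∧ 0 < C ∧
    (∀ A B : ℝ, 0 < A → A ≤ B →
      ∑ s ∈ Finset.Ioc ⌊A⌋₊ ⌊B⌋₊, (1 : ℝ) / s.totient ≤ c0 * Real.log (B / A) + C) ∧
    (∀ A B : ℝ, 1 ≤ A → A ≤ B →
      c0 * Real.log (B / A) - C ≤ ∑ s ∈ Finset.Ioc ⌊A⌋₊ ⌊B⌋₊, (1 : ℝ) / s.totient) := by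
  have hc := c0_pos
  have hc1 := c1_nonneg
  have hl2 : 0 < Real.log 2 := Real.log_pos (by norm_num)
  have hcl : 0 < c0 * Real.log 2 := mul_pos hc hl2
  refine ⟨c0, c0 + c0 * Real.log 2 + c1, hc, by linarith, ?_, ?_⟩
  · intro A B hA hAB
    have hB : 0 < B := lt_of_lt_of_le hA hAB
    have hfl : ⌊A⌋₊ ≤ ⌊B⌋₊ := Nat.floor_mono hAB
    rw [S_sub hfl, Real.log_div hB.ne' hA.ne']
    by_cases hA1 : 1 ≤ A
    · have hB1 : 1 ≤ B := le_trans hA1 hAB
      have a := log_floor hA1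
      have b := log_floor hB1
      have s1 := S_le (Nat.floor_pos.2 hB1)
      have s2 := le_S (Nat.floor_pos.2 hA1)
      have m1 := mul_le_mul_of_nonneg_left b.1 hc.le
      have m2 := mul_le_mul_of_nonneg_left a.2 hc.le
      nlinarith
    · have hA0 : ⌊A⌋₊ = 0 := Nat.floor_eq_zero.2 (not_le.1 hA1)
      have hS0 : S 0 = 0 := by unfold S; simp
      rw [hA0, hS0, sub_zero]
      have hlA : Real.log A ≤ 0 := Real.log_nonpos hA.le (not_le.1 hA1).le
      by_cases hB1 : 1 ≤ B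
      · have b := log_floor hB1
        have s1 := S_le (Nat.floor_pos.2 hB1)
        have m1 := mul_le_mul_of_nonneg_left b.1 hc.le
        nlinarith
      · have hB0 : ⌊B⌋₊ = 0 := Nat.floor_eq_zero.2 (not_le.1 hB1)
        rw [hB0, hS0]
        have : Real.log A ≤ Real.log B := Real.log_le_log hA hAB
        have m1 := mul_le_mul_of_nonneg_left this hc.le
        nlinarith
  · intro A B hA1 hAB
    have hA : 0 < A := by linarith
    have hB : 0 < B := lt_of_lt_of_le hA hAB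
    have hfl : ⌊A⌋₊ ≤ ⌊B⌋₊ := Nat.floor_mono hAB
    rw [S_sub hfl, Real.log_div hB.ne' hA.ne']
    have hB1 : 1 ≤ B := le_trans hA1 hAB
    have a := log_floor hA1
    have b := log_floor hB1
    have s1 := S_le (Nat.floor_pos.2 hA1)
    have s2 := le_S (Nat.floor_pos.2 hB1)
    have m1 := mul_le_mul_of_nonneg_left a.1 hc.le
    have m2 := mul_le_mul_of_nonneg_left b.2 hc.le
    nlinarith

end Pool.Agent.Helper26.CA
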